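import Pool.Agent.helper52.FS.SpecD

/-!
# MP_07c750 (project FS), row fs:PFO: the smooth function of one open set
-/

open scoped MatrixGroups ContDiff Topology UpperHalfPlane ComplexConjugate
open UpperHalfPlane MeasureTheory Filter Set

set_option autoImplicit false

namespace Pool.Agent.FS

open Pool.Agent.RS
open Pool.Agent.MS (bq BB BA SF pf)
open Pool.Agent.EN (XG MG mkX mkM fl pr)

noncomputable section

/-- **Row PFO.** -/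
theorem PFO_proof (hCHF : CHF_stmt) (hPRD : PRD_stmt) (hPOR : POR_stmt) (hXFL : EN.XFL_stmt) (hGLC : RS.GLC_stmt) : PFO_stmt := by
  intro Γ O hΓ hO hne
  obtain ⟨O', c0, C, χ, χa, χn, χl, hO', hO'ne, hc0, hC, hSF, h01, hbn, hbl, hii, hiii⟩ := hCHF Γ O hΓ hO hne
  obtain ⟨c1, R0, hc1, hc1', hR0, hpor⟩ := hPOR Γ O' hΓ hO' hO'ne
  obtain ⟨-, -, -, -, -, -, -, -, -, -, haM, -, hlM, -, -, -, -, -, hla, -⟩ := hGLC
  have haM0 : aM 0 = 1 := by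
    have h := haM 0 0
    rw [add_zero] at h
    exact (mul_eq_left.mp h.symm)
  have hlM0 : lM 0 = 1 := by
    have h := hlM 0 0
    rw [add_zero] at h
    exact (mul_eq_left.mp h.symm)
  obtain ⟨-, -, -, -, hsurj, -, -, -, hfl, -⟩ := hXFL Γ
  refine ⟨min c1 c0, R0, 2 * C, lt_min hc1 hc0, lt_of_le_of_lt (min_le_left _ _) hc1', hR0, by linarith, ?_⟩
  intro n hn
  obtain ⟨Ψa, Ψn, Ψl, hPsf, hPbn, hPbl⟩ := hPRD Γ C χ χa χn χl n hC hSF h01 hbn hbl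
  refine ⟨fun g => ∏ i ∈ Finset.range n, χ (g * aM i), Ψa, Ψn, Ψl, ⟨hPsf, ?_, hPbn, hPbl, ?_, ?_⟩, ?_⟩
  · intro g
    refine ⟨Finset.prod_nonneg fun i _ => (h01 _).1, Finset.prod_le_one (fun i _ => (h01 _).1) (fun i _ => (h01 _).2)⟩
  · intro g r v hr hr1
    have hr0 : 0 < r := lt_of_lt_of_le (mul_pos (by linarith) (Real.exp_pos _)) hr
    obtain ⟨x, hx, hxw⟩ := (hpor n g r v hr hr1).1
    refine ⟨x, hx, ?_⟩
    intro w hw
    have hcr : min c1 c0 * r ≤ c1 * r := mul_le_mul_of_nonneg_right (min_le_left _ _) hr0.le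
    obtain ⟨t, ht, hO't⟩ := hxw w ⟨by linarith [hw.1], by linarith [hw.2]⟩
    have ht0 : 0 ≤ t := ht.1
    have hfl1 : (⌊t⌋₊ : ℝ) ≤ t := Nat.floor_le ht0
    have hfl2 : t < (⌊t⌋₊ : ℝ) + 1 := Nat.lt_floor_add_one t
    have hin : ⌊t⌋₊ < n := by
      have h1 : (⌊t⌋₊ : ℝ) ≤ (n : ℝ) - 1 := hfl1.trans ht.2
      have h2 : (⌊t⌋₊ : ℝ) < (n : ℝ) := by linarith
      exact_mod_cast h2
    refine Finset.prod_eq_zero (Finset.mem_range.mpr hin) ?_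
    have hz := hiii (g * lM w * aM t) ((⌊t⌋₊ : ℝ) - t) 0 hO't (by rw [abs_le]; constructor <;> linarith) (by rw [abs_zero]; exact hc0.le)
    have he : g * lM w * aM (⌊t⌋₊ : ℝ) = g * lM w * aM t * aM ((⌊t⌋₊ : ℝ) - t) * lM 0 := by
      rw [hlM0, mul_one, mul_assoc (g * lM w) (aM t), ← haM, add_sub_cancel]
    rw [he]
    exact hz
  · intro g r v hr hr1
    have hr0 : 0 < r := lt_of_lt_of_le (mul_pos (by linarith) (Real.exp_pos _)) hr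
    obtain ⟨x, hx, hxw⟩ := (hpor n g r v hr hr1).2
    refine ⟨x, hx, ?_⟩
    intro z hz τ o hτ ho
    have hcr : min c1 c0 * r ≤ c1 * r := mul_le_mul_of_nonneg_right (min_le_left _ _) hr0.le
    obtain ⟨t, ht, hO't⟩ := hxw z ⟨by linarith [hz.1], by linarith [hz.2]⟩
    have ht0 : 0 ≤ t := ht.1
    have hfl1 : (⌊t⌋₊ : ℝ) ≤ t := Nat.floor_le ht0
    have hfl2 : t < (⌊t⌋₊ : ℝ) + 1 := Nat.lt_floor_add_one t
    have hin : ⌊t⌋₊ < n := by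
      have h1 : (⌊t⌋₊ : ℝ) ≤ (n : ℝ) - 1 := hfl1.trans ht.2
      have h2 : (⌊t⌋₊ : ℝ) < (n : ℝ) := by linarith
      exact_mod_cast h2
    obtain ⟨hτ1, hτ2⟩ := abs_le.mp hτ
    have him : n - (⌊t⌋₊ + 1) < n := by omega
    refine Finset.prod_eq_zero (Finset.mem_range.mpr him) ?_
    have hcast : (((n - (⌊t⌋₊ + 1) : ℕ)) : ℝ) = (n : ℝ) - ((⌊t⌋₊ : ℝ) + 1) := by
      rw [Nat.cast_sub (by omega)]
      push_cast
      ring
    have hm0 : (0 : ℝ) ≤ (⌊t⌋₊ : ℝ) := Nat.cast_nonneg _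
    have hoc : |Real.exp (-((⌊t⌋₊ : ℝ) + 1)) * o| ≤ c0 := by
      rw [abs_mul, abs_of_pos (Real.exp_pos _)]
      have h1 : Real.exp (-((⌊t⌋₊ : ℝ) + 1)) ≤ 1 := Real.exp_le_one_iff.mpr (by linarith)
      have h2 : |o| ≤ c0 := ho.trans (min_le_right _ _)
      have h3 : Real.exp (-((⌊t⌋₊ : ℝ) + 1)) * |o| ≤ 1 * |o| := mul_le_mul_of_nonneg_right h1 (abs_nonneg _)
      linarith
    have hzz := hiii (g * nM z * aM (-t)) (τ - ((⌊t⌋₊ : ℝ) + 1) + t) (Real.exp (-((⌊t⌋₊ : ℝ) + 1)) * o) hO't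
      (by rw [abs_le]; constructor <;> linarith) hoc
    have he : g * nM z * aM τ * lM o * aM (-(n : ℝ)) * aM (((n - (⌊t⌋₊ + 1) : ℕ)) : ℝ) =
        g * nM z * aM (-t) * aM (τ - ((⌊t⌋₊ : ℝ) + 1) + t) * lM (Real.exp (-((⌊t⌋₊ : ℝ) + 1)) * o) := by
      rw [hcast, mul_assoc (g * nM z * aM τ * lM o) (aM (-(n : ℝ))), ← haM]
      have e1 : -(n : ℝ) + ((n : ℝ) - ((⌊t⌋₊ : ℝ) + 1)) = -((⌊t⌋₊ : ℝ) + 1) := by ring
      rw [e1, mul_assoc (g * nM z * aM τ) (lM o), hla, mul_assoc (g * nM z) (aM (-t)), ← haM, ← mul_assoc,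
        mul_assoc (g * nM z) (aM τ), ← haM]
      have e2 : τ + -((⌊t⌋₊ : ℝ) + 1) = -t + (τ - ((⌊t⌋₊ : ℝ) + 1) + t) := by ring
      rw [e2]
    rw [he]
    exact hzz
  · intro x hx
    obtain ⟨g, rfl⟩ := hsurj x
    refine ⟨g, rfl, ?_⟩
    refine Finset.prod_eq_one fun i _ => ?_
    refine hii _ fun s _ => ?_
    rw [mul_assoc, ← haM, ← hfl]
    exact hx _

end

end Pool.Agent.FS
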